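import Mathlib
import Pool.Agent.Helper32.StcDefs
import Pool.Agent.Helper32.StcMain

set_option autoImplicit false

namespace Pool.Agent.Results.MP_92893d_lc.ThinCuts

open Pool.Agent.Helper32.Stc

/-- For all `k` and `c` one formula of first-order logic with symmetric transitive closure decides
directed reachability on all finite digraphs in which unreachability is witnessed by a thin
directed cut, and it therefore decides acceptance of every halting randomized program with
one-sided error whose configuration graph has a thin directed cut whenever it rejects. -/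
theorem result (k c : ℕ) : ∃ φ : Fml,
    (∀ (V : Type) [Finite V] (E : V → V → Prop) (ν : ℕ → V),
      (¬ Reach E (ν 0) (ν 1) → ThinCut E k c (ν 0) (ν 1)) →
      (Sat E φ ν ↔ Reach E (ν 0) (ν 1))) ∧
    (∀ (V : Type) [Finite V] (δ : Bool → V → V) (T : ℕ) (ν : ℕ → V),
      (∀ (x : Fin T → Bool) (b : Bool),
        δ b (run δ (List.ofFn x) (ν 0)) = run δ (List.ofFn x) (ν 0)) →
      (∀ b : Bool, δ b (ν 1) = ν 1) →
      (1 / 2 ≤ accProb δ (ν 0) (ν 1) T ∨
        accProb δ (ν 0) (ν 1) T = 0 ∧ ThinCut (Conf δ) k c (ν 0) (ν 1)) →
      (Sat (Conf δ) φ ν ↔ 1 / 2 ≤ accProb δ (ν 0) (ν 1) T)) := by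
  refine ⟨Phi k (c + 2), fun V _ E ν h => main k c E ν h, ?_⟩
  intro V _ δ T ν hs ht h
  have hr := reach_iff_accProb δ hs ht
  rw [main k c (Conf δ) ν]
  · rw [hr]
    constructor
    · intro h0
      rcases h with h | h
      · exact h
      · exact absurd h.1 h0
    · intro h0 h1
      rw [h1] at h0
      norm_num at h0
  · intro hn
    rcases h with h | h
    · exfalso
      apply hn
      rw [hr]
      intro h1
      rw [h1] at h
      norm_num at h
    · exact h.2

end Pool.Agent.Results.MP_92893d_lc.ThinCuts
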